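import Pool.Agent.MWNP.Stmts

/-!
# Block MWNP, row P2X: clause c2 without `D 0` (twin of the row N2X of helper19)
-/

namespace Pool.Agent.MWNP.H77

open Pool.Agent.Helper14_MV Pool.Agent.Helper2_MV Pool.Agent.MVO Pool.Agent.MWL Pool.Agent.MWS
  Pool.Agent.MWF Pool.Agent.MWN

/-- the blocks of the left side of `C2` -/
def U2 : ℕ → List ℕ := fun j => if j = 0 then [0, 1] else if j = 1 then [0, 0] else [1, 1]

/-- the blocks of the right side of `C2` -/
def V2 : ℕ → List ℕ := fun j => if j = 0 then [1, 0] else if j = 1 then [0, 0] else [1, 1]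

theorem le2 {p : ℕ → Prop} (h0 : p 0) (h1 : p 1) (h2 : p 2) : ∀ j ≤ 2, p j := by
  intro j hj
  interval_cases j
  · exact h0
  · exact h1
  · exact h2

theorem two01_U2 : Two01 2 U2 := le2 (by decide) (by decide) (by decide)
theorem two01_V2 : Two01 2 V2 := le2 (by decide) (by decide) (by decide)

theorem okB_of {U : ℕ → List ℕ} (h : Two01 2 U) (h0 : 2 ≤ deg 2 (ty U 0))
    (h1 : 2 ≤ deg 2 (ty U 1)) : OkB 2 U := by
  refine ⟨?_, ?_⟩
  · intro j hj c hc
    rcases h j hj c hc with rfl | rfl
    · unfold NS; omega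
    · unfold NS; omega
  · intro j hj c hc
    rcases h j hj c hc with rfl | rfl
    · exact h0
    · exact h1

theorem flat_rep0 (m : ℕ) (f : ℕ → List ℕ) (h : f 0 = [0]) :
    (List.replicate m 0).flatMap f = List.replicate m 0 := by
  induction m with
  | zero => rfl
  | succ m ih =>
    rw [List.replicate_succ, List.flatMap_cons, ih, h]
    rfl

theorem p2x (h1 : PphStmt) (h2 : PcxStmt) (h3 : PcoStmt) : P2xStmt := by
  intro n β hHB hI hM hD
  by_contra hC
  have hE : ¬ Op n β Bit.E := by
    intro hE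
    apply hC
    have hE' : RR β [0, 0, 2] ([0, 0, 2] ++ List.replicate (2 * n) 0) := by
      have h : RR β [0, 0, 2] (mw 1 (ad n (v2 2 0) 1)) := hE
      have e : mw 1 (ad n (v2 2 0) 1) = [0, 0, 2] ++ List.replicate (2 * n) 0 := by
        simp [mw, asm, ad, v2]
      rwa [e] at h
    have hE2 : RR β [0, 2, 0, 0, 3] ([0, 2, 0, 0, 3] ++ List.replicate (2 * n) 0) := by
      have s := hE'.sub (fun c => if c = 2 then [3] else [c])
      rw [List.flatMap_append, flat_rep0 _ _ rfl] at s
      exact (RR.refl [0, 2]).append s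
    have hE3 : Ab n (FC.ofFIC β) 2 (wo 2 (ty U2 0)) 2 := by
      show RR β [0, 2, 0, 0, 3] (mw 2 (ad n (wo 2 (ty U2 0)) 2))
      have e : mw 2 (ad n (wo 2 (ty U2 0)) 2) = [0, 2, 0, 0, 3] ++ List.replicate (2 * n) 0 := by
        simp [mw, asm, ad, wo, ty, U2]
      rw [e]
      exact hE2
    exact h3 n β hHB hI 2 U2 V2 0 1 2 (okB_of two01_U2 (by decide) (by decide))
      (okB_of two01_V2 (by decide) (by decide)) two01_U2 two01_V2
      (le2 (Or.inl (by decide)) (Or.inl (by decide)) (Or.inl (by decide)))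
      (le2 (Or.inl (by decide)) (Or.inl (by decide)) (Or.inl (by decide)))
      (Or.inl ⟨rfl, rfl⟩) (le_refl 2) (by decide) (by decide) (by decide) hE3
  have key := h1 n β hHB hI hM 2 0 (cd3 Cd.one Cd.one Cd.z) (cd3 Cd.one Cd.z Cd.one)
    (cd3 Cd.one Cd.pos Cd.z) (cd3 Cd.one Cd.z Cd.pos) false (v3 1 2 0) (v3 1 1 0) (v3 1 0 2)
    (v3 1 0 1) (by decide +kernel) (by decide) (by decide) (by decide) (by decide)
    (h2 n β hHB hI [8] 2 _ (by
      intro x hx
      rw [List.mem_singleton] at hx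
      exact Or.inl hx) (by decide +kernel))
    (h2 n β hHB hI [8] 2 _ (by
      intro x hx
      rw [List.mem_singleton] at hx
      exact Or.inl hx) (by decide +kernel))
    (h2 n β hHB hI [8, 3, 0] 2 _ (by
      intro x hx
      simp only [List.mem_cons, List.not_mem_nil, or_false] at hx
      rcases hx with rfl | rfl | rfl
      · exact Or.inl rfl
      · exact Or.inr (Or.inr (Or.inr (Or.inr (Or.inl ⟨rfl, hD⟩))))
      · exact Or.inr (Or.inl ⟨rfl, hE⟩)) (by decide +kernel))
    (h2 n β hHB hI [8, 3] 2 _ (by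
      intro x hx
      simp only [List.mem_cons, List.not_mem_nil, or_false] at hx
      rcases hx with rfl | rfl
      · exact Or.inl rfl
      · exact Or.inr (Or.inr (Or.inr (Or.inr (Or.inl ⟨rfl, hD⟩))))) (by decide +kernel))
  rcases key with h | h
  · have h' : RR β [0, 1, 2, 0, 3, 1] [1, 0, 2, 0, 3, 1] := h
    apply hC
    have s := (h'.sub (fun c => if c = 3 then [0, 3] else [c])).append (RR.refl [1])
    exact s
  · exact hC h

end Pool.Agent.MWNP.H77
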